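import Pool.Agent.H71.VK.Stmt

/-! RTR: transport of `Rel` by isomorphisms. -/

set_option autoImplicit false

open Set Pool.Agent.TK

namespace Pool.Agent.H71.VK

namespace RTRaux

variable {C : Type} {c0 : C}

lemma isoH_conj {M N : St C} {h f : Equiv.Perm ℕ} (hh : IsoH h M N) (hf : IsoH f M M) :
    IsoH (h * f * h⁻¹) N N := by
  constructor
  · intro u v
    have h1 := hh.1 (h⁻¹ u) (h⁻¹ v)
    rw [show h (h⁻¹ u) = u from h.apply_symm_apply u,
      show h (h⁻¹ v) = v from h.apply_symm_apply v] at h1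
    rw [← h1, hf.1, hh.1]
    rfl
  · intro l
    have h1 := hh.2 (l.map (h⁻¹ : Equiv.Perm ℕ))
    have e1 : (l.map (h⁻¹ : Equiv.Perm ℕ)).map h = l := by
      rw [List.map_map]
      conv_rhs => rw [← List.map_id l]
      apply List.map_congr_left
      intro a _
      simp
    rw [e1] at h1
    rw [← h1, hf.2, hh.2, List.map_map, List.map_map]
    rfl

lemma isSwap_conj (hITR : ITR C c0) {T : Set (Fl C)} {M N : St C} {h f : Equiv.Perm ℕ}
    (hh : IsoH h M N) (hf : IsSwap T M f) : IsSwap T N (h * f * h⁻¹) := by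
  obtain ⟨h1, h2, s, D, D', h3, h4, h5, ⟨t, ht, hF⟩, h7, h8⟩ := hf
  obtain ⟨i1, -, i3, -⟩ := hITR h M N hh
  have hms : ms (s.map h) = h '' ms s := by
    ext x
    rw [mem_ms, List.mem_map]
    rfl
  refine ⟨isoH_conj hh h1, ?_, s.map h, h '' D, h '' D', ?_, ?_, ?_, ?_, ?_, ?_⟩
  · intro a
    simp [Equiv.Perm.mul_apply, h2]
  · rw [hms]; exact i1 _ _ h3
  · rw [hms]; exact i1 _ _ h4
  · intro he
    exact h5 (h.injective.image_injective he)
  · exact ⟨t, ht, (i3 s D).symm.trans hF⟩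
  · rw [← h7]
    ext x
    simp only [mem_image, Equiv.Perm.mul_apply]
    constructor
    · rintro ⟨y, ⟨z, hz, rfl⟩, rfl⟩
      exact ⟨f z, ⟨z, hz, rfl⟩, by simp⟩
    · rintro ⟨y, ⟨z, hz, rfl⟩, rfl⟩
      exact ⟨h z, ⟨z, hz, rfl⟩, by simp⟩
  · intro x hx hx'
    have k1 : h⁻¹ x ∉ D := fun hk => hx ⟨h⁻¹ x, hk, by simp⟩
    have k2 : h⁻¹ x ∉ D' := fun hk => hx' ⟨h⁻¹ x, hk, by simp⟩
    have := h8 _ k1 k2
    rw [Equiv.Perm.mul_apply, Equiv.Perm.mul_apply, this]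
    exact h.apply_symm_apply x

lemma conj_mem (hITR : ITR C c0) {T : Set (Fl C)} {M N : St C} {h : Equiv.Perm ℕ}
    (hh : IsoH h M N) {n : Equiv.Perm ℕ} (hn : n ∈ N0 T M) : h * n * h⁻¹ ∈ N0 T N := by
  have : N0 T M ≤ (N0 T N).comap (MulAut.conj h).toMonoidHom := by
    rw [N0, Subgroup.closure_le]
    intro f hf
    exact Subgroup.subset_closure (isSwap_conj hITR hh hf)
  exact this hn

end RTRaux

theorem pf_RTR {C : Type} {c0 : C} (hITR : ITR C c0) : RTR C c0 := by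
  intro T M N h _ _ hh l m hR
  obtain ⟨n, hn, rfl⟩ := hR
  refine ⟨h * n * h⁻¹, RTRaux.conj_mem hITR hh hn, ?_⟩
  rw [List.map_map, List.map_map]
  apply List.map_congr_left
  intro a _
  simp [Equiv.Perm.mul_apply]

end Pool.Agent.H71.VK
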